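import Pool.Agent.H30.EE.TargetsF

/-!
# MP_70ba79_ag, board `ee_modules`, FNU: the numbers of the two phases
-/

set_option autoImplicit false

namespace Pool.Agent.H35.EE.FNU

open Pool.Agent.H30.EE

theorem pf_FNU : T_FNU := by
  intro ε R h0 h1 hR hR1
  have hR1' : 1 ≤ R := by
    rcases Nat.eq_zero_or_pos R with h | h
    · subst h
      norm_num at hR1
      linarith
    · exact h
  have hRq : (1 : ℚ) ≤ R := by exact_mod_cast hR1'
  obtain ⟨ε1, he1⟩ : ∃ x : ℚ, x = (ε + 1 / (R + 1)) / 2 := ⟨_, rfl⟩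
  have hRp : (0 : ℚ) < R + 1 := by linarith
  have hε1R : ε1 * (R + 1) = (ε * (R + 1) + 1) / 2 := by
    rw [he1]
    field_simp
  have hinv : 1 / ((R : ℚ) + 1) < ε := by
    rw [div_lt_iff₀ hRp]
    linarith
  have hinv0 : 0 < 1 / ((R : ℚ) + 1) := by positivity
  have hlt : ε1 < ε := by rw [he1]; linarith
  have hhalf : ε / 2 < ε1 := by rw [he1]; linarith
  have hpos : 0 < ε1 := by linarith
  have hl1 : ε1 < 1 := by linarith
  obtain ⟨δ, hδ⟩ : ∃ x : ℚ, x = ε1 * (R + 1) - 1 := ⟨_, rfl⟩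
  have hδ0 : 0 < δ := by
    rw [hδ, hε1R]
    linarith
  have hle32 : ε1 * (R + 1) ≤ 3 / 2 := by
    rw [hε1R]
    linarith
  obtain ⟨c1, hc1⟩ : ∃ x : ℚ, x = ε1 * (ε - ε1) / 8 := ⟨_, rfl⟩
  have hd0 : 0 < ε - ε1 := by linarith
  have hc0 : 0 < c1 := by
    rw [hc1]
    positivity
  have hc18 : c1 ≤ 1 / 8 := by
    rw [hc1]
    have := mul_le_one₀ hl1.le hd0.le (show ε - ε1 ≤ 1 by linarith)
    linarith
  -- the threshold
  obtain ⟨n1, hn1⟩ := exists_nat_ge ((2 * R + 2) / c1 + (R + 1) * (R + 1) / (c1 * δ) +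
    9 * (R + 1) / (c1 * ε) + 8 * (R + 2) / ε)
  have p1 : 0 < (2 * (R : ℚ) + 2) / c1 := by positivity
  have p2 : 0 < ((R : ℚ) + 1) * (R + 1) / (c1 * δ) := by positivity
  have p3 : 0 < 9 * ((R : ℚ) + 1) / (c1 * ε) := by positivity
  have p4 : 0 < 8 * ((R : ℚ) + 2) / ε := by positivity
  refine ⟨ε1, c1, hpos, hl1, hc0, n1, ?_⟩
  intro n e hn he
  have hnq : (n1 : ℚ) ≤ n := by exact_mod_cast hn
  have q1 : (2 * (R : ℚ) + 2) ≤ c1 * n := by
    have : (2 * (R : ℚ) + 2) / c1 ≤ n := by linarith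
    rw [div_le_iff₀ hc0] at this
    linarith
  have q2 : ((R : ℚ) + 1) * (R + 1) < c1 * n * δ := by
    have : ((R : ℚ) + 1) * (R + 1) / (c1 * δ) < n := by linarith
    rw [div_lt_iff₀ (by positivity)] at this
    linarith
  have q3 : 9 * ((R : ℚ) + 1) < c1 * n * ε := by
    have : 9 * ((R : ℚ) + 1) / (c1 * ε) < n := by linarith
    rw [div_lt_iff₀ (by positivity)] at this
    linarith
  have q4 : 8 * ((R : ℚ) + 2) < ε * n := by
    have : 8 * ((R : ℚ) + 2) / ε < n := by linarith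
    rw [div_lt_iff₀ h0] at this
    linarith
  have hn0 : (0 : ℚ) < n := by linarith
  -- the number `a`
  have hfl := Nat.floor_le (show (0 : ℚ) ≤ 2 * c1 * n by positivity)
  have hfl2 := Nat.lt_floor_add_one (2 * c1 * (n : ℚ))
  obtain ⟨a, ha⟩ : ∃ x : ℕ, x = ⌊2 * c1 * (n : ℚ)⌋₊ := ⟨_, rfl⟩
  rw [← ha] at hfl hfl2
  have ha1 : c1 * n ≤ a := by linarith
  have haR : 2 * (R : ℚ) + 2 ≤ a := by linarith
  have ha0 : (1 : ℚ) ≤ a := by linarith
  have he' : ((1 : ℚ) + ε) * n ≤ (e : ℚ) + 1 := he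
  have hc1n : 2 * (a : ℚ) ≤ ε1 * (ε - ε1) * n / 2 := by
    have : 2 * (a : ℚ) ≤ 4 * c1 * n := by linarith
    rw [hc1] at this
    linarith
  refine ⟨a, ?_, ?_, ha1, ?_, ?_⟩
  · exact_mod_cast haR
  · have : 2 * (a : ℚ) ≤ e + 2 := by
      have t1 := mul_le_mul_of_nonneg_right hc18 hn0.le
      have t2 : 4 * c1 * (n : ℚ) ≤ n := by linarith
      linarith
    exact_mod_cast this
  · intro h χ hh hχ
    constructor
    · have key : (a : ℚ) < ε1 * (a * (R + 1) - (R + 1) * (R - 2) / 2 - 1) := by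
        have e1 : ε1 * ((a : ℚ) * (R + 1) - (R + 1) * (R - 2) / 2 - 1) =
            a * (δ + 1) - ε1 * ((R + 1) * (R - 2) / 2 + 1) := by rw [hδ]; ring
        rw [e1]
        have e2 : ((R : ℚ) + 1) * (R + 1) < a * δ := lt_of_lt_of_le q2 (by gcongr)
        have e3 : ε1 * (((R : ℚ) + 1) * (R - 2) / 2 + 1) ≤ (R + 1) * (R + 1) := by
          have t0 : (0 : ℚ) ≤ R * (R - 1) := mul_nonneg (by linarith) (by linarith)
          have t00 : (0 : ℚ) ≤ R * R := mul_nonneg (by linarith) (by linarith)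
          have t1 : (0 : ℚ) ≤ ((R : ℚ) + 1) * (R - 2) / 2 + 1 := by linarith
          have t2 := mul_le_mul_of_nonneg_right hl1.le t1
          linarith
        linarith
      have t3 := mul_lt_mul_of_pos_right key hh
      linarith
    · have key : (2 * (a : ℚ) - 2) * (1 - ε1) ≤ ε1 * (((e : ℚ) - n) - 1 - ε1 * (n - 1)) := by
        have e1 : (2 * (a : ℚ) - 2) * (1 - ε1) ≤ 2 * a - 2 := by
          have : 0 ≤ (2 * (a : ℚ) - 2) * ε1 := mul_nonneg (by linarith) hpos.le
          linarith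
        have e2 : (ε - ε1) * n - 2 ≤ ((e : ℚ) - n) - 1 - ε1 * (n - 1) := by linarith
        have e3 : ε1 * ((ε - ε1) * n - 2) ≤ ε1 * (((e : ℚ) - n) - 1 - ε1 * (n - 1)) :=
          mul_le_mul_of_nonneg_left e2 hpos.le
        have e4 : 0 ≤ ε1 * (ε - ε1) * n := by positivity
        linarith
      have k1 : (2 * (a : ℚ) - 2) * h * (h - ε1 * h) = ((2 * (a : ℚ) - 2) * (1 - ε1)) * (h * h) := by
        ring
      have k2 : ε1 * h * (((e : ℚ) - n) * h - χ - ε1 * h * (n - 1)) =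
          (ε1 * (((e : ℚ) - n) - 1 - ε1 * (n - 1))) * (h * h) + ε1 * h * (h - χ) := by ring
      rw [k1, k2]
      have k3 : 0 < ε1 * h * (h - χ) := by
        have : 0 < h - χ := by linarith
        positivity
      have k4 := mul_le_mul_of_nonneg_right key (show 0 ≤ h * h by positivity)
      linarith
  · intro r hr hrR h χ l μ hh hχ hl hμ
    have hrq : (1 : ℚ) ≤ r := by exact_mod_cast hr
    have hrRq : (r : ℚ) ≤ R := by exact_mod_cast hrR
    have hrp : (0 : ℚ) < r + 1 := by linarith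
    have hμ1 : μ * (r + 1) = (1 + ε / 8) * h := by
      rw [hμ]
      field_simp
    have hμ0 : 0 < μ := by
      rw [hμ]
      positivity
    have hμh : μ < h := by
      have : μ * 2 ≤ μ * (r + 1) := mul_le_mul_of_nonneg_left (by linarith) hμ0.le
      have : ε * h ≤ 1 * h := mul_le_mul_of_nonneg_right h1 hh.le
      linarith
    refine ⟨hμ0, hμh, ?_, ?_⟩
    · have e1 : μ * ((a : ℚ) * (r + 1) - (r + 1) * (r - 2) / 2 - 1) =
          (1 + ε / 8) * h * a - (1 + ε / 8) * h * (r - 2) / 2 - μ := by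
        rw [← hμ1]
        ring
      rw [e1]
      have e2 : 9 * ((R : ℚ) + 1) < a * ε := lt_of_lt_of_le q3 (by gcongr)
      have e3 : 9 * ((R : ℚ) + 1) * h < a * ε * h := mul_lt_mul_of_pos_right e2 hh
      have e4 : (1 + ε / 8) * h * (r - 2) / 2 ≤ 9 / 8 * (R : ℚ) / 2 * h := by
        have : (1 + ε / 8) * ((r : ℚ) - 2) ≤ 9 / 8 * R := by
          have h1 : (1 + ε / 8) * ((r : ℚ) - 2) ≤ (1 + ε / 8) * R :=
            mul_le_mul_of_nonneg_left (by linarith) (by linarith)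
          have h2 : (1 + ε / 8) * (R : ℚ) ≤ 9 / 8 * R :=
            mul_le_mul_of_nonneg_right (by linarith) (by linarith)
          linarith
        have := mul_le_mul_of_nonneg_right this hh.le
        linarith
      have e5 : (0 : ℚ) ≤ R * h := mul_nonneg (by linarith) hh.le
      linarith
    · -- the bracket
      have b1 : (n : ℚ) * l ≤ n * (ε / 8 * h) := mul_le_mul_of_nonneg_left hl hn0.le
      have b2 : μ * ((r + 1) * ((n : ℚ) - r + 1) - 2) ≤ (1 + ε / 8) * h * n := by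
        have : μ * ((r + 1) * ((n : ℚ) - r + 1) - 2) =
            (1 + ε / 8) * h * (n - r + 1) - 2 * μ := by rw [← hμ1]; ring
        rw [this]
        have : (1 + ε / 8) * h * ((n : ℚ) - r + 1) ≤ (1 + ε / 8) * h * n :=
          mul_le_mul_of_nonneg_left (by linarith) (by positivity)
        linarith
      have b3 : ((1 + ε) * n - 1 - r) * h ≤ ((e : ℚ) - r) * h :=
        mul_le_mul_of_nonneg_right (by linarith) hh.le
      have b4 : h * (3 / 4 * ε * n - r - 2) <
          ((e : ℚ) - r) * h - χ - n * l - μ * ((r + 1) * (n - r + 1) - 2) := by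
        linarith
      have b5 : 2 * (a : ℚ) * (r + 1) ≤ 3 / 8 * ε * n := by
        have f1 : 2 * (a : ℚ) * (r + 1) ≤ 2 * a * (R + 1) :=
          mul_le_mul_of_nonneg_left (by linarith) (by linarith)
        have f2 : 2 * (a : ℚ) * (R + 1) ≤ ε1 * (ε - ε1) * n / 2 * (R + 1) :=
          mul_le_mul_of_nonneg_right hc1n hRp.le
        have f3 : ε1 * (ε - ε1) * n / 2 * (R + 1) = (ε1 * (R + 1)) * ((ε - ε1) * n / 2) := by ring
        have f4 : (ε1 * (R + 1)) * ((ε - ε1) * n / 2) ≤ 3 / 2 * ((ε - ε1) * n / 2) :=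
          mul_le_mul_of_nonneg_right hle32 (by positivity)
        have f5 : (ε - ε1) * (n : ℚ) ≤ ε / 2 * n :=
          mul_le_mul_of_nonneg_right (by linarith) hn0.le
        linarith
      have b6 : 2 * (a : ℚ) * (r + 1) ≤ 3 / 4 * ε * n - r - 2 := by linarith
      have b7 : μ * (h * (3 / 4 * ε * n - r - 2)) <
          μ * (((e : ℚ) - r) * h - χ - n * l - μ * ((r + 1) * (n - r + 1) - 2)) :=
        mul_lt_mul_of_pos_left b4 hμ0
      refine lt_of_le_of_lt ?_ b7
      have b8 : (2 * (a : ℚ) - 2) * h * (h - μ) ≤ 2 * a * h * h := by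
        have g1 : (2 * (a : ℚ) - 2) * h * (h - μ) ≤ (2 * (a : ℚ) - 2) * h * h :=
          mul_le_mul_of_nonneg_left (by linarith) (by
            have : 0 ≤ 2 * (a : ℚ) - 2 := by linarith
            positivity)
        have g2 : 0 < h * h := by positivity
        linarith
      refine b8.trans ?_
      have b9 : μ * (h * (2 * (a : ℚ) * (r + 1))) ≤ μ * (h * (3 / 4 * ε * n - r - 2)) := by
        gcongr
      refine le_trans ?_ b9
      have b10 : μ * (h * (2 * (a : ℚ) * (r + 1))) = (μ * (r + 1)) * (2 * a * h) := by ring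
      rw [b10, hμ1]
      have b11 : 0 ≤ ε / 8 * h * (2 * a * h) := by positivity
      linarith

end Pool.Agent.H35.EE.FNU
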